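import Pool.Agent.Helper70.RT.Sheet

/-! # Rows PT1, PT2 of RT (MP_798d7d_nt): points of the quartic give points of the cubic -/

set_option autoImplicit false

namespace Pool.Helper70.RT

theorem st_PT1 : ST_PT1 := by
  intro W b3 b2 b1 b0 A B η ζ w hA hB hw hζ
  obtain rfl : A = -(12 * W ^ 2 * b0 - 3 * b3 * b1 + b2 ^ 2) / 48 := by linarith
  obtain rfl : B = -(72 * W ^ 2 * b2 * b0 + 9 * b3 * b2 * b1 - 27 * W ^ 2 * b1 ^ 2 -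
    27 * b0 * b3 ^ 2 - 2 * b2 ^ 3) / 1728 := by linarith
  obtain ⟨ξ, rfl⟩ : ∃ ξ, η = ξ * ζ := ⟨η / ζ, by field_simp⟩
  obtain ⟨y, rfl⟩ : ∃ y, w = y * ζ ^ 2 := ⟨w / ζ ^ 2, by field_simp⟩
  have hy : y ^ 2 = W ^ 2 * ξ ^ 4 + b3 * ξ ^ 3 + b2 * ξ ^ 2 + b1 * ξ + b0 := by
    have h4 : ζ ^ 4 ≠ 0 := pow_ne_zero 4 hζ
    apply mul_right_cancel₀ h4
    linear_combination hw
  have hx : (6 * W ^ 2 * (ξ * ζ) ^ 2 + 3 * b3 * (ξ * ζ) * ζ + b2 * ζ ^ 2 +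
      6 * (y * ζ ^ 2) * W) / (12 * ζ ^ 2) = (6 * W ^ 2 * ξ ^ 2 + 3 * b3 * ξ + b2 + 6 * y * W) / 12 := by
    field_simp
  rw [hx]
  refine ⟨((4 * W ^ 2 * ξ + b3) * y + W * (4 * W ^ 2 * ξ ^ 3 + 3 * b3 * ξ ^ 2 + 2 * b2 * ξ +
    b1)) / 8, ?_⟩
  linear_combination (-(W ^ 3 / 8) * y + (b3 ^ 2 - 4 * W ^ 2 * b2 - 4 * W ^ 2 * b3 * ξ -
    8 * W ^ 4 * ξ ^ 2) / 64) * hy

theorem st_PT2 : ST_PT2 := by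
  intro W b3 b2 b1 b0 A B hA hB hW
  obtain rfl : A = -(12 * W ^ 2 * b0 - 3 * b3 * b1 + b2 ^ 2) / 48 := by linarith
  obtain rfl : B = -(72 * W ^ 2 * b2 * b0 + 9 * b3 * b2 * b1 - 27 * W ^ 2 * b1 ^ 2 -
    27 * b0 * b3 ^ 2 - 2 * b2 ^ 3) / 1728 := by linarith
  refine ⟨(b3 ^ 3 - 4 * W ^ 2 * b2 * b3 + 8 * W ^ 4 * b1) / (64 * W ^ 3), ?_⟩
  field_simp
  ring

end Pool.Helper70.RT
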